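import Pool.Agent.H.MP_0427c5_lc.PS.Defs

/-!
# Module Cert: certificates for the answer no

A certificate is a header together with a list of at most `T` pairs (cell, content), coded by a function
`Fin T → Option (Fin S × Fin W)`. `zset` is the set of the queries that follow it with some guess and
are then answered no.
-/

set_option autoImplicit false

namespace Pool.Agent.H.MP_0427c5_lc.PS

open Finset

variable {G H : Type} {S W : ℕ}

/-- The list of pairs (cell, content), the last one first, describes probes of the algorithm. -/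
def valid (alg : List (Fin W) → Fin S ⊕ Bool) : List (Fin S × Fin W) → Prop
  | [] => True
  | p :: r => alg (r.map Prod.snd) = Sum.inl p.1 ∧ valid alg r

/-- ... and the algorithm then answers no. -/
def follows (alg : List (Fin W) → Fin S ⊕ Bool) (r : List (Fin S × Fin W)) : Prop :=
  valid alg r ∧ alg (r.map Prod.snd) = Sum.inr false

/-- The list that is coded by a function. -/
def decode {T : ℕ} (f : Fin T → Option (Fin S × Fin W)) : List (Fin S × Fin W) :=
  (List.ofFn f).reduceOption

theorem exists_decode {T : ℕ} (r : List (Fin S × Fin W)) (hr : r.length ≤ T) :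
    ∃ f : Fin T → Option (Fin S × Fin W), decode f = r := by
  induction r generalizing T with
  | nil =>
    refine ⟨fun _ => none, ?_⟩
    unfold decode
    rw [List.ofFn_const, List.reduceOption_replicate_none]
  | cons a r ih =>
    obtain _ | T := T
    · simp at hr
    · obtain ⟨f, hf⟩ := ih (T := T) (by simpa using hr)
      refine ⟨Fin.cons (some a) f, ?_⟩
      unfold decode at hf ⊢
      rw [List.ofFn_succ, Fin.cons_zero, List.reduceOption_cons_of_some]
      simp only [Fin.cons_succ]
      rw [hf]

theorem length_decode {T : ℕ} (f : Fin T → Option (Fin S × Fin W)) : (decode f).length ≤ T := by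
  unfold decode
  refine (List.reduceOption_length_le _).trans ?_
  rw [List.length_ofFn]

theorem Cert_snd (M : Fin S → Fin W) (l : List (Fin S)) :
    (l.map (fun c => (c, M c))).map Prod.snd = l.map M := by
  rw [List.map_map]
  rfl

open Classical in
/-- The queries in `[N, 2N)` that follow the certificate with some guess. -/
noncomputable def zset (D : CellProbe G H S W) (T N : ℕ) (κ : H × (Fin T → Option (Fin S × Fin W))) :
    Finset ℕ :=
  (Finset.Ico N (2 * N)).filter (fun z => ∃ g, follows (D.step z g κ.1) (decode κ.2))

theorem mem_zset (D : CellProbe G H S W) (T N : ℕ) (κ : H × (Fin T → Option (Fin S × Fin W)))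
    (z : ℕ) : z ∈ zset D T N κ ↔
      z ∈ Finset.Ico N (2 * N) ∧ ∃ g, follows (D.step z g κ.1) (decode κ.2) := by
  classical
  unfold zset
  exact Finset.mem_filter

/-- A run that ends with no is described by its certificate. -/
theorem follows_of_run (M : Fin S → Fin W) (alg : List (Fin W) → Fin S ⊕ Bool) (t : ℕ)
    (l : List (Fin S)) (hl : valid alg (l.map (fun c => (c, M c))))
    (h : (run M alg t l).2 = some false) :
    follows alg ((run M alg t l).1.map (fun c => (c, M c))) ∧
      (run M alg t l).1.length ≤ l.length + t := by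
  induction t generalizing l with
  | zero =>
    unfold run at h ⊢
    cases ha : alg (l.map M) with
    | inl c =>
      rw [ha] at h
      simp at h
    | inr b =>
      rw [ha] at h
      have hb : b = false := by simpa using h
      refine ⟨⟨hl, ?_⟩, le_rfl⟩
      change alg ((l.map (fun c => (c, M c))).map Prod.snd) = _
      rw [Cert_snd, ha, hb]
  | succ t ih =>
    unfold run at h ⊢
    cases ha : alg (l.map M) with
    | inl c =>
      rw [ha] at h
      have h1 := ih (c :: l) ⟨by rw [Cert_snd]; exact ha, hl⟩ h
      refine ⟨h1.1, h1.2.trans ?_⟩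
      rw [List.length_cons]
      omega
    | inr b =>
      rw [ha] at h
      have hb : b = false := by simpa using h
      refine ⟨⟨hl, ?_⟩, Nat.le_add_right _ _⟩
      change alg ((l.map (fun c => (c, M c))).map Prod.snd) = _
      rw [Cert_snd, ha, hb]

theorem Cert_run (M : Fin S → Fin W) (alg : List (Fin W) → Fin S ⊕ Bool) (t : ℕ)
    (l : List (Fin S)) (ht : l.length ≤ t) (hl : valid alg (l.map (fun c => (c, M c)))) :
    run M alg t [] = run M alg (t - l.length) l := by
  induction l with
  | nil => rfl
  | cons c r ih =>
    obtain ⟨h1, h2⟩ := hl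
    rw [Cert_snd] at h1
    rw [List.length_cons] at ht
    rw [ih (by omega) h2, List.length_cons]
    obtain ⟨s, hs⟩ : ∃ s, t - r.length = s + 1 := ⟨t - r.length - 1, by omega⟩
    have hs' : t - (r.length + 1) = s := by omega
    rw [hs, hs']
    conv_lhs => unfold run
    change (match alg (r.map M) with
      | Sum.inl c => run M alg s (c :: r)
      | Sum.inr b => (r, some b)) = _
    rw [h1]

/-- A query that follows the certificate of a memory is answered no. -/
theorem run_of_follows (M : Fin S → Fin W) (alg : List (Fin W) → Fin S ⊕ Bool) (t : ℕ)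
    (l : List (Fin S)) (ht : l.length ≤ t) (hl : follows alg (l.map (fun c => (c, M c)))) :
    run M alg t [] = (l, some false) := by
  rw [Cert_run M alg t l ht hl.1]
  have h1 : alg (l.map M) = Sum.inr false := by
    have h2 := hl.2
    rwa [Cert_snd] at h2
  cases t - l.length with
  | zero =>
    unfold run
    rw [h1]
  | succ n =>
    unfold run
    rw [h1]

theorem card_noSet_le [Fintype G] (D : CellProbe G H S W) (T N k : ℕ) (A : Finset ℕ)
    (hyes : ∀ x ∈ A, ∀ y ∈ A, ∀ g, (D.trace T A (x + y) g).2 ≠ some false)
    (hhit : ∀ κ, k + 1 ≤ (zset D T N κ).card → ∃ b ∈ A, ∃ c ∈ A, b + c ∈ zset D T N κ) :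
    (D.noSet T N A).card ≤ (D.noSeqs T N A).card * k := by
  classical
  have hsub : D.noSet T N A ⊆ (D.noSeqs T N A).biUnion (fun l =>
      (Finset.Ico N (2 * N)).filter (fun z => ∃ g, D.trace T A z g = (l, some false))) := by
    intro z hz
    obtain ⟨x, hx, rfl⟩ := Finset.mem_image.1 hz
    obtain ⟨hx1, hx2⟩ := Finset.mem_filter.1 hx
    have hx3 := (Finset.mem_product.1 hx1).1
    refine Finset.mem_biUnion.2 ⟨(D.trace T A x.1 x.2).1, Finset.mem_image.2 ⟨x, hx, rfl⟩, ?_⟩
    exact Finset.mem_filter.2 ⟨hx3, x.2, Prod.ext rfl hx2⟩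
  refine (Finset.card_le_card hsub).trans (Finset.card_biUnion_le_card_mul _ _ k fun l hl => ?_)
  by_contra hcon
  push Not at hcon
  obtain ⟨x₀, hx₀, hxl⟩ := Finset.mem_image.1 hl
  have hx₁ := (Finset.mem_filter.1 hx₀).2
  have h1 := follows_of_run (D.mem A) (D.step x₀.1 x₀.2 (D.header A)) T [] trivial hx₁
  have hlen : l.length ≤ T := by
    have h2 := h1.2
    rw [List.length_nil, zero_add] at h2
    rw [← hxl]
    exact h2
  obtain ⟨f, hf⟩ := exists_decode (T := T) (l.map (fun c => (c, D.mem A c)))
    (by rw [List.length_map]; exact hlen)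
  have hsub2 : (Finset.Ico N (2 * N)).filter (fun z => ∃ g, D.trace T A z g = (l, some false)) ⊆
      zset D T N (D.header A, f) := by
    intro z hz
    obtain ⟨hz3, g, hz4⟩ := Finset.mem_filter.1 hz
    refine (mem_zset D T N _ z).2 ⟨hz3, g, ?_⟩
    change follows (D.step z g (D.header A)) (decode f)
    have h5 : (run (D.mem A) (D.step z g (D.header A)) T []) = (l, some false) := hz4
    have h6 := (follows_of_run (D.mem A) (D.step z g (D.header A)) T [] trivial (by rw [h5])).1
    rw [h5] at h6
    rw [hf]
    exact h6
  obtain ⟨b, hb, c, hc, hbc⟩ := hhit (D.header A, f)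
    (Nat.succ_le_of_lt (lt_of_lt_of_le hcon (Finset.card_le_card hsub2)))
  obtain ⟨g, h3⟩ := ((mem_zset D T N _ _).1 hbc).2
  change follows (D.step (b + c) g (D.header A)) (decode f) at h3
  rw [hf] at h3
  refine hyes b hb c hc g ?_
  have h4 := run_of_follows (D.mem A) (D.step (b + c) g (D.header A)) T l hlen h3
  change (run (D.mem A) (D.step (b + c) g (D.header A)) T []).2 = some false
  rw [h4]

end Pool.Agent.H.MP_0427c5_lc.PS
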