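import Mathlib

/-!
# Cell-probe structures and their probe sequences

The memory consists of a header and `S` cells, every cell holds one of `W` values; header and memory are
arbitrary functions of the input set. The query algorithm sees the query, a guess, the header and the
contents of the cells read so far (the last one first) and names the next cell or answers. A query is
rejected if some guess leads to the answer no; the type of the guesses of a deterministic algorithm has
one element.
-/

set_option autoImplicit false

namespace Pool.Agent.H.MP_0427c5_lc.PS

open Finset

/-- A cell-probe data structure whose inputs are finite sets of natural numbers. -/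
structure CellProbe (G H : Type) (S W : ℕ) where
  header : Finset ℕ → H
  mem : Finset ℕ → Fin S → Fin W
  step : ℕ → G → H → List (Fin W) → Fin S ⊕ Bool

/-- Run the algorithm `alg` on the memory `M` with at most `t` further probes, when the cells `l` have
been read (the last one first): the list of cells read and the answer (none if it still wants to probe). -/
def run {S W : ℕ} (M : Fin S → Fin W) (alg : List (Fin W) → Fin S ⊕ Bool) :
    ℕ → List (Fin S) → List (Fin S) × Option Bool
  | 0, l =>
    match alg (l.map M) with
    | Sum.inl _ => (l, none)
    | Sum.inr b => (l, some b)
  | t + 1, l =>
    match alg (l.map M) with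
    | Sum.inl c => run M alg t (c :: l)
    | Sum.inr b => (l, some b)

variable {G H : Type} {S W : ℕ}

/-- The run of the query `z` with the guess `g` on the structure for the input set `A` with at most `T`
probes. -/
def CellProbe.trace (D : CellProbe G H S W) (T : ℕ) (A : Finset ℕ) (z : ℕ) (g : G) :
    List (Fin S) × Option Bool :=
  run (D.mem A) (D.step z g (D.header A)) T []

/-- The pairs of a query in `[N, 2N)` and a guess that lead to the answer no. -/
def CellProbe.noRuns [Fintype G] (D : CellProbe G H S W) (T N : ℕ) (A : Finset ℕ) : Finset (ℕ × G) :=
  (Finset.Ico N (2 * N) ×ˢ Finset.univ).filter (fun x => (D.trace T A x.1 x.2).2 = some false)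

/-- The queries in `[N, 2N)` that are rejected: some guess leads to the answer no. -/
def CellProbe.noSet [Fintype G] (D : CellProbe G H S W) (T N : ℕ) (A : Finset ℕ) : Finset ℕ :=
  (D.noRuns T N A).image Prod.fst

/-- The probe sequences that end with no. -/
def CellProbe.noSeqs [Fintype G] (D : CellProbe G H S W) (T N : ℕ) (A : Finset ℕ) :
    Finset (List (Fin S)) :=
  (D.noRuns T N A).image (fun x => (D.trace T A x.1 x.2).1)

end Pool.Agent.H.MP_0427c5_lc.PS
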