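import Mathlib

/-!
# Module HitC: a small hitting set for large sets

Greedy choice: every step can hit at least the fraction `v / M` of the sets that are not hit, so `q`
steps (with `q v ≥ M`) at least halve their number: `(1 - v/M)^q ≤ (1 - 1/q)^q ≤ 1/2`. After `l` rounds
at most one set is left (`card ι ≤ 2 ^ l`), one more round leaves less than one.
-/

set_option autoImplicit false

namespace Pool.Agent.H.MP_0427c5_lc.PS

open Finset

theorem HitC_step {ι : Type} (M v : ℕ) (V : ι → Finset ℕ)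
    (hV : ∀ i, V i ⊆ Finset.range M) (hv : ∀ i, v ≤ (V i).card) (hM : 0 < M) (S : Finset ι) :
    ∃ c ∈ Finset.range M, v * S.card ≤ M * (S.filter (fun i => c ∈ V i)).card := by
  by_contra hcon
  push Not at hcon
  have h1 : ∑ c ∈ Finset.range M, (S.filter (fun i => c ∈ V i)).card = ∑ i ∈ S, (V i).card := by
    simp_rw [Finset.card_filter]
    rw [Finset.sum_comm]
    refine Finset.sum_congr rfl fun i _ => ?_
    rw [← Finset.card_filter, Finset.filter_mem_eq_inter, Finset.inter_eq_right.2 (hV i)]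
  have h2 : S.card * v ≤ ∑ i ∈ S, (V i).card := by
    have := Finset.card_nsmul_le_sum S (fun i => (V i).card) v fun i _ => hv i
    rwa [smul_eq_mul] at this
  have h3 : ∑ c ∈ Finset.range M, M * (S.filter (fun i => c ∈ V i)).card <
      ∑ _c ∈ Finset.range M, v * S.card :=
    Finset.sum_lt_sum_of_nonempty ⟨0, Finset.mem_range.2 hM⟩ hcon
  rw [← Finset.mul_sum, h1, Finset.sum_const, Finset.card_range, smul_eq_mul] at h3
  have h4 := lt_of_mul_lt_mul_left h3 (Nat.zero_le M)
  rw [mul_comm] at h2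
  omega

theorem HitC_half {ι : Type} (M v q : ℕ) (V : ι → Finset ℕ)
    (hV : ∀ i, V i ⊆ Finset.range M) (hv : ∀ i, v ≤ (V i).card) (hM : 0 < M) (hq : M ≤ v * q)
    (S : Finset ι) : ∃ C : Finset ℕ, C ⊆ Finset.range M ∧ C.card ≤ q ∧
      2 * (S.filter (fun i => ∀ c ∈ C, c ∉ V i)).card ≤ S.card := by
  have key : ∀ j : ℕ, ∃ C : Finset ℕ, C ⊆ Finset.range M ∧ C.card ≤ j ∧
      (2 * (S.filter (fun i => ∀ c ∈ C, c ∉ V i)).card ≤ S.card ∨
        2 * q * (S.filter (fun i => ∀ c ∈ C, c ∉ V i)).card + j * S.card ≤ 2 * q * S.card) := by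
    intro j
    induction j with
    | zero =>
      refine ⟨∅, Finset.empty_subset _, le_rfl, Or.inr ?_⟩
      have h1 : (S.filter (fun i => ∀ c ∈ (∅ : Finset ℕ), c ∉ V i)).card ≤ S.card :=
        Finset.card_filter_le _ _
      nlinarith
    | succ j ih =>
      obtain ⟨C, hC, hCc, h | h⟩ := ih
      · exact ⟨C, hC, by omega, Or.inl h⟩
      by_cases h2 : 2 * (S.filter (fun i => ∀ c ∈ C, c ∉ V i)).card ≤ S.card
      · exact ⟨C, hC, by omega, Or.inl h2⟩
      push Not at h2
      obtain ⟨c, hc, hcv⟩ := HitC_step M v V hV hv hM (S.filter (fun i => ∀ c ∈ C, c ∉ V i))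
      refine ⟨insert c C, Finset.insert_subset hc hC,
        (Finset.card_insert_le _ _).trans (by omega), Or.inr ?_⟩
      obtain ⟨U, hU⟩ : ∃ U, U = S.filter (fun i => ∀ c ∈ C, c ∉ V i) := ⟨_, rfl⟩
      rw [← hU] at hcv h2 h
      have hU' : S.filter (fun i => ∀ d ∈ insert c C, d ∉ V i) =
          U.filter (fun i => ¬ c ∈ V i) := by
        rw [hU, Finset.filter_filter]
        refine Finset.filter_congr fun i _ => ?_
        rw [Finset.forall_mem_insert]
        exact and_comm
      rw [hU']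
      have h3 : (U.filter (fun i => c ∈ V i)).card + (U.filter (fun i => ¬ c ∈ V i)).card =
          U.card := Finset.card_filter_add_card_filter_not _
      obtain ⟨x, hx⟩ : ∃ x, x = (U.filter (fun i => c ∈ V i)).card := ⟨_, rfl⟩
      obtain ⟨y, hy⟩ : ∃ y, y = (U.filter (fun i => ¬ c ∈ V i)).card := ⟨_, rfl⟩
      rw [← hx] at hcv h3
      rw [← hy] at h3 ⊢
      have h4 : U.card ≤ q * x := by
        have h5 : M * U.card ≤ M * (q * x) := by
          calc M * U.card ≤ v * q * U.card := Nat.mul_le_mul_right _ hq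
            _ = q * (v * U.card) := by ring
            _ ≤ q * (M * x) := Nat.mul_le_mul_left _ hcv
            _ = M * (q * x) := by ring
        exact Nat.le_of_mul_le_mul_left h5 hM
      rw [← h3] at h h4 h2
      nlinarith
  obtain ⟨C, hC, hCc, h | h⟩ := key q
  · exact ⟨C, hC, hCc, h⟩
  · refine ⟨C, hC, hCc, ?_⟩
    have hq0 : 0 < q := by
      rcases Nat.eq_zero_or_pos q with h0 | h0
      · rw [h0, mul_zero] at hq
        omega
      · exact h0
    refine Nat.le_of_mul_le_mul_left ?_ hq0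
    nlinarith

theorem hitC {ι : Type} [Fintype ι] (M v q l : ℕ) (V : ι → Finset ℕ)
    (hV : ∀ i, V i ⊆ Finset.range M) (hv : ∀ i, v ≤ (V i).card) (hM : 0 < M) (hq : M ≤ v * q)
    (hF : Fintype.card ι ≤ 2 ^ l) :
    ∃ C : Finset ℕ, C ⊆ Finset.range M ∧ C.card ≤ q * (l + 1) ∧ ∀ i, ∃ c ∈ C, c ∈ V i := by
  have key : ∀ k : ℕ, ∃ C : Finset ℕ, C ⊆ Finset.range M ∧ C.card ≤ q * k ∧
      2 ^ k * ((Finset.univ : Finset ι).filter (fun i => ∀ c ∈ C, c ∉ V i)).card ≤
        Fintype.card ι := by
    intro k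
    induction k with
    | zero =>
      refine ⟨∅, Finset.empty_subset _, le_rfl, ?_⟩
      rw [pow_zero, one_mul]
      exact Finset.card_le_univ _
    | succ k ih =>
      obtain ⟨C, hC, hCc, h⟩ := ih
      obtain ⟨D, hD, hDc, h'⟩ := HitC_half M v q V hV hv hM hq
        ((Finset.univ : Finset ι).filter (fun i => ∀ c ∈ C, c ∉ V i))
      refine ⟨C ∪ D, Finset.union_subset hC hD, ?_, ?_⟩
      · refine (Finset.card_union_le _ _).trans ?_
        rw [mul_add, mul_one]
        omega
      · have hU : (Finset.univ : Finset ι).filter (fun i => ∀ c ∈ C ∪ D, c ∉ V i) =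
            ((Finset.univ : Finset ι).filter (fun i => ∀ c ∈ C, c ∉ V i)).filter
              (fun i => ∀ c ∈ D, c ∉ V i) := by
          rw [Finset.filter_filter]
          refine Finset.filter_congr fun i _ => ?_
          constructor
          · intro hh
            exact ⟨fun c hc => hh c (Finset.mem_union_left _ hc),
              fun c hc => hh c (Finset.mem_union_right _ hc)⟩
          · rintro ⟨h1, h2⟩ c hc
            rcases Finset.mem_union.1 hc with h3 | h3
            · exact h1 c h3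
            · exact h2 c h3
        rw [hU, pow_succ, mul_assoc]
        exact (Nat.mul_le_mul_left _ h').trans h
  obtain ⟨C, hC, hCc, h⟩ := key (l + 1)
  refine ⟨C, hC, hCc, fun i => ?_⟩
  by_contra hcon
  push Not at hcon
  have h1 : 0 < ((Finset.univ : Finset ι).filter (fun i => ∀ c ∈ C, c ∉ V i)).card :=
    Finset.card_pos.2 ⟨i, Finset.mem_filter.2 ⟨Finset.mem_univ i, hcon⟩⟩
  have h2 : 0 < 2 ^ l := by positivity
  rw [pow_succ] at h
  nlinarith

end Pool.Agent.H.MP_0427c5_lc.PS
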