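import Pool.Agent.H.MP_0427c5_lc.PS.HitD
import Pool.Agent.H.MP_0427c5_lc.PS.HitC

/-!
# Module Fin: a set of `n` numbers whose sums hit all large sets of a family

`g = n / 16`, `q = n / (2 (l + 1))`, `k = 2 N / (g q)`; restrict the family to the `i` with at least `k + 1`
elements (a subtype). Take `B` from `hitB` (for `k + 1`: `32 g (k + 1) ≤ 64 N / q + 32 g ≤ N / 2 + N / 2`
as `q ≥ 128` and `32 g ≤ 2 n ≤ N / 2`), `C` from `hitC` with `M = 2 N`, `v = g (k + 1)`, `V i = V (2 N) B (Z i)`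
(`2 N ≤ g (k + 1) q`). `|B| ≤ 8 g ≤ n / 2`, `|C| ≤ q (l + 1) ≤ n / 2`; extend `B ∪ C` to a set `A` with `n`
elements.
-/

set_option autoImplicit false

namespace Pool.Agent.H.MP_0427c5_lc.PS

open Finset

theorem exists_hitting {ι : Type} [Fintype ι] (n N l : ℕ) (Z : ι → Finset ℕ)
    (hZ : ∀ i, Z i ⊆ Finset.Ico N (2 * N)) (hF : Fintype.card ι ≤ 2 ^ l)
    (hn : 256 * (l + 1) ≤ n) (hN : 4 * n ≤ N) :
    ∃ A : Finset ℕ, A ⊆ Finset.range (2 * N) ∧ A.card = n ∧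
      ∀ i, 2 * N / ((n / 16) * (n / (2 * (l + 1)))) + 1 ≤ (Z i).card →
        ∃ b ∈ A, ∃ c ∈ A, b + c ∈ Z i := by
  classical
  obtain ⟨g, hg⟩ : ∃ g, g = n / 16 := ⟨_, rfl⟩
  obtain ⟨q, hq⟩ : ∃ q, q = n / (2 * (l + 1)) := ⟨_, rfl⟩
  obtain ⟨k, hk⟩ : ∃ k, k = 2 * N / (g * q) := ⟨_, rfl⟩
  rw [← hg, ← hq, ← hk]
  have hg16 : 16 * g ≤ n := by
    rw [hg]
    exact Nat.mul_div_le n 16
  have hg2 : 16 * (l + 1) ≤ g := by
    rw [hg, Nat.le_div_iff_mul_le (by norm_num)]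
    omega
  have hq1 : 2 * (l + 1) * q ≤ n := by
    rw [hq]
    exact Nat.mul_div_le n _
  have hq2 : 128 ≤ q := by
    rw [hq, Nat.le_div_iff_mul_le (by positivity)]
    omega
  have hg0 : 0 < g := by omega
  have hgq : 0 < g * q := Nat.mul_pos hg0 (by omega)
  have hk1 : g * q * k ≤ 2 * N := by
    rw [hk]
    exact Nat.mul_div_le _ _
  have hk2 : 2 * N < g * q * (k + 1) := by
    rw [hk]
    exact Nat.lt_mul_div_succ _ hgq
  have hN0 : 0 < N := by omega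
  have hA : 128 * (g * k) ≤ g * q * k := by
    calc 128 * (g * k) ≤ q * (g * k) := Nat.mul_le_mul_right _ hq2
      _ = g * q * k := by ring
  have hB32 : 32 * g * (k + 1) ≤ N := by
    have e : 32 * g * (k + 1) = 32 * (g * k) + 32 * g := by ring
    rw [e]
    omega
  have hcard : Fintype.card {i : ι // k + 1 ≤ (Z i).card} ≤ 2 ^ l :=
    (Fintype.card_subtype_le _).trans hF
  obtain ⟨B, hBN, hBc, hBV⟩ := hitB N (k + 1) g l
    (fun i : {i : ι // k + 1 ≤ (Z i).card} => Z i.1) (fun i => hZ i.1) (fun i => i.2) hcard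
    (by omega) hB32 hN0
  obtain ⟨C, hCN, hCc, hCV⟩ := hitC (2 * N) (g * (k + 1)) q l
    (fun i : {i : ι // k + 1 ≤ (Z i).card} => V (2 * N) B (Z i.1))
    (fun i => Finset.filter_subset _ _) hBV (by omega)
    (by
      have e : g * (k + 1) * q = g * q * (k + 1) := by ring
      rw [e]
      exact hk2.le) hcard
  have hsub : B ∪ C ⊆ range (2 * N) := by
    refine union_subset (hBN.trans ?_) hCN
    exact range_subset_range.mpr (by omega)
  have hc : (B ∪ C).card ≤ n := by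
    refine (card_union_le _ _).trans ?_
    have e : 2 * (l + 1) * q = 2 * (q * (l + 1)) := by ring
    omega
  obtain ⟨A, hA1, hA2, hA3⟩ := Finset.exists_subsuperset_card_eq hsub hc
    (by rw [card_range]; omega)
  refine ⟨A, hA2, hA3, fun i hi => ?_⟩
  obtain ⟨c, hcC, hcV⟩ := hCV ⟨i, hi⟩
  obtain ⟨b, hb, hbc⟩ := (mem_filter.mp hcV).2
  exact ⟨b, hA1 (mem_union_left _ hb), c, hA1 (mem_union_right _ hcC), hbc⟩

end Pool.Agent.H.MP_0427c5_lc.PS
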