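import Mathlib

/-!
# Module HitB: a good step

`V M B Z` is the set of the `c < M` with `b + c ∈ Z` for some `b ∈ B`. A number `b < N` is good if at
least half of the `k` elements of `Z - b` are not in `V (2 N) B Z`. As
`∑ b < N, |(Z - b) ∩ V| ≤ ∑ v ∈ V, #{b | b + v ∈ Z} ≤ k |V| ≤ k N / 4`, at most half of the `b` are not
good (for these `2 |(Z - b) ∩ V| ≥ k + 1`). All `z - b`, `z ∈ Z`, `b < N`, are in `[0, 2 N)`.
-/

set_option autoImplicit false

namespace Pool.Agent.H.MP_0427c5_lc.PS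

open Finset

/-- The numbers `c < M` with `b + c ∈ Z` for some `b ∈ B`. -/
def V (M : ℕ) (B Z : Finset ℕ) : Finset ℕ :=
  (Finset.range M).filter (fun c => ∃ b ∈ B, b + c ∈ Z)

theorem card_V_le (M : ℕ) (B Z : Finset ℕ) : (V M B Z).card ≤ B.card * Z.card := by
  have h1 : V M B Z ⊆ (B ×ˢ Z).image (fun x => x.2 - x.1) := by
    intro c hc
    obtain ⟨b, hb, hbc⟩ := (Finset.mem_filter.1 hc).2
    exact Finset.mem_image.2 ⟨(b, b + c), Finset.mem_product.2 ⟨hb, hbc⟩, Nat.add_sub_cancel_left b c⟩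
  calc (V M B Z).card ≤ ((B ×ˢ Z).image (fun x => x.2 - x.1)).card := Finset.card_le_card h1
    _ ≤ (B ×ˢ Z).card := Finset.card_image_le
    _ = B.card * Z.card := Finset.card_product _ _

theorem V_mono (M : ℕ) (B B' Z Z' : Finset ℕ) (hB : B ⊆ B') (hZ : Z ⊆ Z') : V M B Z ⊆ V M B' Z' := by
  intro c hc
  obtain ⟨hc1, b, hb, hbc⟩ := Finset.mem_filter.1 hc
  exact Finset.mem_filter.2 ⟨hc1, b, hB hb, hZ hbc⟩

/-- The numbers `c` with `b + c ∈ Z`. -/
def HitB_D (N : ℕ) (Z : Finset ℕ) (b : ℕ) : Finset ℕ :=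
  (Finset.range (2 * N)).filter (fun c => b + c ∈ Z)

theorem HitB_card_D {N : ℕ} {Z : Finset ℕ} (hZ : Z ⊆ Finset.Ico N (2 * N)) {b : ℕ} (hb : b < N) :
    (HitB_D N Z b).card = Z.card := by
  have h1 : (HitB_D N Z b).image (fun c => b + c) = Z := by
    ext z
    constructor
    · intro hz
      obtain ⟨c, hc, rfl⟩ := Finset.mem_image.1 hz
      exact (Finset.mem_filter.1 hc).2
    · intro hz
      have h2 := Finset.mem_Ico.1 (hZ hz)
      have h3 : b + (z - b) = z := by omega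
      refine Finset.mem_image.2 ⟨z - b, Finset.mem_filter.2 ⟨Finset.mem_range.2 (by omega), ?_⟩, h3⟩
      rw [h3]
      exact hz
  have h2 := Finset.card_image_of_injective (HitB_D N Z b) (add_right_injective b)
  rw [h1] at h2
  exact h2.symm

theorem HitB_ins (N : ℕ) (B Z : Finset ℕ) (b : ℕ) :
    V (2 * N) (insert b B) Z = V (2 * N) B Z ∪ HitB_D N Z b := by
  ext c
  simp only [V, HitB_D, Finset.mem_union, Finset.mem_filter, Finset.mem_insert,
    exists_eq_or_imp]
  constructor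
  · rintro ⟨h1, h2 | h2⟩
    · exact Or.inr ⟨h1, h2⟩
    · exact Or.inl ⟨h1, h2⟩
  · rintro (⟨h1, h2⟩ | ⟨h1, h2⟩)
    · exact ⟨h1, Or.inr h2⟩
    · exact ⟨h1, Or.inl h2⟩

theorem HitB_sum (N : ℕ) (W Z : Finset ℕ) :
    ∑ b ∈ Finset.range N, (W ∩ HitB_D N Z b).card ≤ W.card * Z.card := by
  calc ∑ b ∈ Finset.range N, (W ∩ HitB_D N Z b).card
      ≤ ∑ b ∈ Finset.range N, (W.filter (fun v => b + v ∈ Z)).card := by
        refine Finset.sum_le_sum fun b _ => Finset.card_le_card fun v hv => ?_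
        obtain ⟨h1, h2⟩ := Finset.mem_inter.1 hv
        exact Finset.mem_filter.2 ⟨h1, (Finset.mem_filter.1 h2).2⟩
    _ = ∑ v ∈ W, ((Finset.range N).filter (fun b => b + v ∈ Z)).card :=
        Finset.sum_card_bipartiteAbove_eq_sum_card_bipartiteBelow (fun b v => b + v ∈ Z)
    _ ≤ ∑ _v ∈ W, Z.card := by
        refine Finset.sum_le_sum fun v _ => ?_
        refine Finset.card_le_card_of_injOn (fun b => b + v)
          (fun b hb => (Finset.mem_filter.1 hb).2) ?_
        intro x _ y _ hxy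
        exact Nat.add_right_cancel hxy
    _ = W.card * Z.card := by rw [Finset.sum_const, smul_eq_mul]

theorem half_good (N k : ℕ) (B Z : Finset ℕ) (hZ : Z ⊆ Finset.Ico N (2 * N)) (hk : Z.card = k)
    (hk0 : 0 < k) (hV : 4 * (V (2 * N) B Z).card ≤ N) :
    N ≤ 2 * ((Finset.range N).filter (fun b =>
      k + 2 * (V (2 * N) B Z).card ≤ 2 * (V (2 * N) (insert b B) Z).card)).card := by
  have hs := HitB_sum N (V (2 * N) B Z) Z
  rw [hk] at hs
  have hc : ∀ b ∈ Finset.range N, (V (2 * N) (insert b B) Z).card +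
      (V (2 * N) B Z ∩ HitB_D N Z b).card = (V (2 * N) B Z).card + k := by
    intro b hb
    rw [HitB_ins, Finset.card_union_add_card_inter, HitB_card_D hZ (Finset.mem_range.1 hb), hk]
  have hp := Finset.card_filter_add_card_filter_not (s := Finset.range N) (fun b =>
      k + 2 * (V (2 * N) B Z).card ≤ 2 * (V (2 * N) (insert b B) Z).card)
  rw [Finset.card_range] at hp
  set w := (V (2 * N) B Z).card with hw
  set g := ((Finset.range N).filter (fun b =>
      k + 2 * w ≤ 2 * (V (2 * N) (insert b B) Z).card)).card with hg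
  set h := ((Finset.range N).filter (fun b =>
      ¬ (k + 2 * w ≤ 2 * (V (2 * N) (insert b B) Z).card))) with hh
  have hb1 : h.card • (k + 1) ≤ ∑ b ∈ h, 2 * (V (2 * N) B Z ∩ HitB_D N Z b).card := by
    refine Finset.card_nsmul_le_sum _ _ _ fun b hb => ?_
    obtain ⟨h1, h2⟩ := Finset.mem_filter.1 hb
    have h3 := hc b h1
    omega
  have hb2 : ∑ b ∈ h, 2 * (V (2 * N) B Z ∩ HitB_D N Z b).card ≤ 2 * (w * k) := by
    rw [← Finset.mul_sum]
    refine Nat.mul_le_mul_left 2 (le_trans ?_ hs)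
    exact Finset.sum_le_sum_of_subset (Finset.filter_subset _ _)
  rw [smul_eq_mul] at hb1
  have hb3 : h.card * (k + 1) ≤ 2 * (w * k) := hb1.trans hb2
  have hb4 : 2 * h.card * (k + 1) ≤ N * (k + 1) := by
    calc 2 * h.card * (k + 1) = 2 * (h.card * (k + 1)) := by ring
      _ ≤ 2 * (2 * (w * k)) := Nat.mul_le_mul_left 2 hb3
      _ = 4 * w * k := by ring
      _ ≤ N * k := Nat.mul_le_mul_right k hV
      _ ≤ N * (k + 1) := Nat.mul_le_mul_left N (Nat.le_succ k)
  have hb5 : 2 * h.card ≤ N := Nat.le_of_mul_le_mul_right hb4 (Nat.succ_pos k)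
  omega

end Pool.Agent.H.MP_0427c5_lc.PS
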