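import Mathlib

/-!
# Module HitP: the potential

Choose the elements of `B` one after the other. `good i B b` says that the step from `B` to `insert b B`
is good for `i`. The potential `∑ i, (1/2) ^ (c i)`, where `c i` is the number of good steps for `i`, is
multiplied by at most `3/4` for a suitable `b`: the average over `b < N` of `(1/2) ^ (0 or 1)` is at most
`3/4` for every `i`. Induction on `m` gives `B` and `c` with `∑ i, (1/2) ^ (c i) ≤ (3/4) ^ m card ι`.
`P i B c` is an invariant (here: `c k ≤ 2 |V B (Z i)|`) with `P i ∅ 0`, preserved by all steps and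
`P i (insert b B) (c + 1)` after a good step.
-/

set_option autoImplicit false

namespace Pool.Agent.H.MP_0427c5_lc.PS

open Finset

theorem exists_greedy {ι : Type} [Fintype ι] (N m : ℕ) (hN : 0 < N)
    (good : ι → Finset ℕ → ℕ → Prop) (P : ι → Finset ℕ → ℕ → Prop)
    (h0 : ∀ i, P i ∅ 0) (h1 : ∀ i B c b, P i B c → P i (insert b B) c)
    (h2 : ∀ i B c b, P i B c → good i B b → P i (insert b B) (c + 1))
    (hgood : ∀ i B, B.card ≤ m → ∀ G : Finset ℕ, (∀ b, b ∈ G ↔ b < N ∧ good i B b) →
      N ≤ 2 * G.card) :
    ∃ (B : Finset ℕ) (c : ι → ℕ), B ⊆ Finset.range N ∧ B.card ≤ m ∧ (∀ i, P i B (c i)) ∧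
      ∑ i, (1 / 2 : ℝ) ^ (c i) ≤ (3 / 4 : ℝ) ^ m * Fintype.card ι := by
  classical
  have key : ∀ j : ℕ, j ≤ m → ∃ (B : Finset ℕ) (c : ι → ℕ), B ⊆ Finset.range N ∧ B.card ≤ j ∧
      (∀ i, P i B (c i)) ∧ ∑ i, (1 / 2 : ℝ) ^ (c i) ≤ (3 / 4 : ℝ) ^ j * Fintype.card ι := by
    intro j
    induction j with
    | zero =>
      intro _
      refine ⟨∅, fun _ => 0, Finset.empty_subset _, le_rfl, h0, ?_⟩
      simp
    | succ j ih =>
      intro hj
      obtain ⟨B, c, hB, hBj, hP, hsum⟩ := ih (by omega)
      have hone : ∀ i, ∑ b ∈ Finset.range N, (if good i B b then (1 / 2 : ℝ) else 1) ≤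
          3 / 4 * N := by
        intro i
        have hG := hgood i B (by omega) ((Finset.range N).filter fun b => good i B b)
          (fun b => by rw [Finset.mem_filter, Finset.mem_range])
        have hG' : (N : ℝ) ≤ 2 * (((Finset.range N).filter fun b => good i B b).card : ℝ) := by
          exact_mod_cast hG
        have h3 : ∑ b ∈ Finset.range N, (if good i B b then (1 / 2 : ℝ) else 1) =
            ∑ b ∈ Finset.range N, (1 - 1 / 2 * (if good i B b then (1 : ℝ) else 0)) := by
          refine Finset.sum_congr rfl fun b _ => ?_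
          split_ifs <;> norm_num
        rw [h3, Finset.sum_sub_distrib, ← Finset.mul_sum, Finset.sum_boole, Finset.sum_const,
          Finset.card_range, nsmul_eq_mul, mul_one]
        linarith
      have htot : ∑ b ∈ Finset.range N, ∑ i, (1 / 2 : ℝ) ^ (if good i B b then c i + 1 else c i) ≤
          ∑ b ∈ Finset.range N, 3 / 4 * ∑ i, (1 / 2 : ℝ) ^ (c i) := by
        rw [Finset.sum_comm, Finset.sum_const, Finset.card_range, nsmul_eq_mul]
        have h3 : (N : ℝ) * (3 / 4 * ∑ i, (1 / 2 : ℝ) ^ (c i)) =
            ∑ i, (1 / 2 : ℝ) ^ (c i) * (3 / 4 * N) := by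
          rw [← Finset.sum_mul]
          ring
        rw [h3]
        refine Finset.sum_le_sum fun i _ => ?_
        have h4 : ∑ b ∈ Finset.range N, (1 / 2 : ℝ) ^ (if good i B b then c i + 1 else c i) =
            (1 / 2 : ℝ) ^ (c i) * ∑ b ∈ Finset.range N, (if good i B b then (1 / 2 : ℝ) else 1) := by
          rw [Finset.mul_sum]
          refine Finset.sum_congr rfl fun b _ => ?_
          split_ifs
          · rw [pow_succ]
          · rw [mul_one]
        rw [h4]
        exact mul_le_mul_of_nonneg_left (hone i) (by positivity)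
      obtain ⟨b, hb, hble⟩ := Finset.exists_le_of_sum_le
        (Finset.nonempty_range_iff.2 hN.ne') htot
      refine ⟨insert b B, fun i => if good i B b then c i + 1 else c i, ?_, ?_, ?_, ?_⟩
      · intro x hx
        rcases Finset.mem_insert.1 hx with h | h
        · rw [h]
          exact hb
        · exact hB h
      · exact (Finset.card_insert_le _ _).trans (by omega)
      · intro i
        show P i (insert b B) (if good i B b then c i + 1 else c i)
        split_ifs with hg
        · exact h2 i B (c i) b (hP i) hg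
        · exact h1 i B (c i) b (hP i)
      · refine hble.trans ?_
        rw [pow_succ]
        have h5 : 3 / 4 * ∑ i, (1 / 2 : ℝ) ^ (c i) ≤ 3 / 4 * ((3 / 4 : ℝ) ^ j * Fintype.card ι) :=
          mul_le_mul_of_nonneg_left hsum (by norm_num)
        refine h5.trans (le_of_eq ?_)
        ring
  exact key m le_rfl

end Pool.Agent.H.MP_0427c5_lc.PS
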