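import Pool.Agent.H.MP_0427c5_lc.PS.HitB
import Pool.Agent.H.MP_0427c5_lc.PS.HitP

/-!
# Module HitD: a set `B` with many differences to all sets of a family

For every `i` take a subset `Z'` of `Z i` with exactly `k` elements (the case `k = 0` is trivial); use
`exists_greedy` with `m = 8 g`, the invariant `c k ≤ 2 |V B Z'|` and `half_good`
(`|V B Z'| ≤ 8 g k ≤ N / 4` by `card_V_le`). Then
`(1/2) ^ (c i) ≤ (3/4)^(8 g) 2 ^ l ≤ (1/8)^g 2^g = (1/2)^(2 g)`, so `c i ≥ 2 g` and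
`2 g k ≤ c i k ≤ 2 |V B Z'|`. Note `(3/4)^8 ≤ 1/8`.
-/

set_option autoImplicit false

namespace Pool.Agent.H.MP_0427c5_lc.PS

open Finset

theorem hitB {ι : Type} [Fintype ι] (N k g l : ℕ) (Z : ι → Finset ℕ)
    (hZ : ∀ i, Z i ⊆ Finset.Ico N (2 * N)) (hk : ∀ i, k ≤ (Z i).card)
    (hF : Fintype.card ι ≤ 2 ^ l) (hg : l ≤ g) (hN : 32 * g * k ≤ N) (hN0 : 0 < N) :
    ∃ B : Finset ℕ, B ⊆ Finset.range N ∧ B.card ≤ 8 * g ∧
      ∀ i, g * k ≤ (V (2 * N) B (Z i)).card := by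
  classical
  rcases Nat.eq_zero_or_pos k with hk0 | hk0
  · refine ⟨∅, Finset.empty_subset _, Nat.zero_le _, fun i => ?_⟩
    rw [hk0, Nat.mul_zero]
    exact Nat.zero_le _
  choose Z' hZ' hZk using fun i => Finset.exists_subset_card_eq (hk i)
  obtain ⟨B, c, hB, hB8, hP, hsum⟩ := exists_greedy (ι := ι) N (8 * g) hN0
    (fun i B b => k + 2 * (V (2 * N) B (Z' i)).card ≤ 2 * (V (2 * N) (insert b B) (Z' i)).card)
    (fun i B c => c * k ≤ 2 * (V (2 * N) B (Z' i)).card)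
    (fun i => by simp)
    (fun i B c b h => h.trans (Nat.mul_le_mul_left _
      (Finset.card_le_card (V_mono _ _ _ _ _ (Finset.subset_insert _ _) (Finset.Subset.refl _)))))
    (fun i B c b h hg => by
      have h1 : (c + 1) * k = c * k + k := by ring
      rw [h1]
      omega)
    (fun i B hB G hG => by
      have hV : (V (2 * N) B (Z' i)).card ≤ 8 * g * k := by
        refine (card_V_le _ _ _).trans ?_
        rw [hZk i]
        exact Nat.mul_le_mul_right _ hB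
      have hV4 : 4 * (V (2 * N) B (Z' i)).card ≤ N := by
        calc 4 * (V (2 * N) B (Z' i)).card ≤ 4 * (8 * g * k) := Nat.mul_le_mul_left _ hV
          _ = 32 * g * k := by ring
          _ ≤ N := hN
      have h1 := half_good N k B (Z' i) ((hZ' i).trans (hZ i)) (hZk i) hk0 hV4
      have h2 : (Finset.range N).filter (fun b =>
          k + 2 * (V (2 * N) B (Z' i)).card ≤ 2 * (V (2 * N) (insert b B) (Z' i)).card) = G := by
        ext b
        rw [Finset.mem_filter, Finset.mem_range, hG]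
      rw [h2] at h1
      exact h1)
  refine ⟨B, hB, hB8, fun i => ?_⟩
  have h1 : (1 / 2 : ℝ) ^ (c i) ≤ (3 / 4 : ℝ) ^ (8 * g) * Fintype.card ι :=
    (Finset.single_le_sum (f := fun i => (1 / 2 : ℝ) ^ (c i)) (fun j _ => by positivity)
      (Finset.mem_univ i)).trans hsum
  have h2 : (Fintype.card ι : ℝ) ≤ 2 ^ g := by
    have h3 : Fintype.card ι ≤ 2 ^ g := hF.trans (Nat.pow_le_pow_right (by norm_num) hg)
    exact_mod_cast h3
  have h3 : (3 / 4 : ℝ) ^ (8 * g) ≤ (1 / 8 : ℝ) ^ g := by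
    rw [pow_mul]
    exact pow_le_pow_left₀ (by norm_num) (by norm_num) g
  have h4 : (1 / 2 : ℝ) ^ (c i) ≤ (1 / 2 : ℝ) ^ (2 * g) := by
    calc (1 / 2 : ℝ) ^ (c i) ≤ (3 / 4 : ℝ) ^ (8 * g) * Fintype.card ι := h1
      _ ≤ (1 / 8 : ℝ) ^ g * 2 ^ g :=
          mul_le_mul h3 h2 (Nat.cast_nonneg _) (by positivity)
      _ = (1 / 2 : ℝ) ^ (2 * g) := by
          rw [← mul_pow, pow_mul]
          norm_num
  have h5 : 2 * g ≤ c i :=
    (pow_le_pow_iff_right_of_lt_one₀ (by norm_num) (by norm_num)).1 h4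
  have h6 : 2 * (g * k) ≤ 2 * (V (2 * N) B (Z' i)).card := by
    calc 2 * (g * k) = 2 * g * k := by ring
      _ ≤ c i * k := Nat.mul_le_mul_right _ h5
      _ ≤ _ := hP i
  have h7 : (V (2 * N) B (Z' i)).card ≤ (V (2 * N) B (Z i)).card :=
    Finset.card_le_card (V_mono _ _ _ _ _ (Finset.Subset.refl _) (hZ' i))
  omega

end Pool.Agent.H.MP_0427c5_lc.PS
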