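import Pool.Agent.H.MP_0427c5_lc.PS.Fin
import Pool.Agent.H.MP_0427c5_lc.PS.Cert

/-!
# Module Seqs: many probe sequences

`exists_hitting` for the sets `zset (D ω) T N κ` (the number of `(ω, κ)` is `|Ω| |H| (S W + 1) ^ T`) and
`card_noSet_le` with `k = 2 N / (g q)` give `|Ω| N / R ≤ ∑ ω, |noSet| ≤ P k`, where `P` is the sum of the
numbers of sequences, so `|Ω| g q ≤ 2 R P`, and `g q ≥ n ^ 2 / (128 (l + 1))`
(`g ≥ n / 32`, `q ≥ n / (4 (l + 1))`).
-/

set_option autoImplicit false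

namespace Pool.Agent.H.MP_0427c5_lc.PS

open Finset

variable {Ω G H : Type} {S W : ℕ}

theorem many_seqs [Fintype Ω] [Fintype G] [Fintype H] (D : Ω → CellProbe G H S W)
    (n N T l R : ℕ)
    (hF : Fintype.card Ω * (Fintype.card H * (S * W + 1) ^ T) ≤ 2 ^ l)
    (hn : 256 * (l + 1) ≤ n) (hN : 4 * n ≤ N)
    (hyes : ∀ ω, ∀ A ⊆ Finset.range (2 * N), A.card = n → ∀ x ∈ A, ∀ y ∈ A,
      ∀ g, ((D ω).trace T A (x + y) g).2 ≠ some false)
    (hno : ∀ A ⊆ Finset.range (2 * N), A.card = n →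
      Fintype.card Ω * N ≤ R * ∑ ω, ((D ω).noSet T N A).card) :
    ∃ A ⊆ Finset.range (2 * N), A.card = n ∧
      Fintype.card Ω * n ^ 2 ≤ 256 * R * (l + 1) * ∑ ω, ((D ω).noSeqs T N A).card := by
  classical
  have hcard : Fintype.card (Ω × H × (Fin T → Option (Fin S × Fin W))) =
      Fintype.card Ω * (Fintype.card H * (S * W + 1) ^ T) := by
    rw [Fintype.card_prod, Fintype.card_prod, Fintype.card_fun, Fintype.card_option,
      Fintype.card_prod, Fintype.card_fin, Fintype.card_fin, Fintype.card_fin]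
  obtain ⟨A, hA, hAn, hhit⟩ := exists_hitting n N l
    (fun κ : Ω × H × (Fin T → Option (Fin S × Fin W)) => zset (D κ.1) T N κ.2)
    (fun κ z hz => ((mem_zset (D κ.1) T N κ.2 z).1 hz).1) (hcard.trans_le hF) hn hN
  refine ⟨A, hA, hAn, ?_⟩
  have h1 : ∀ ω, ((D ω).noSet T N A).card ≤
      ((D ω).noSeqs T N A).card * (2 * N / ((n / 16) * (n / (2 * (l + 1))))) := fun ω =>
    card_noSet_le (D ω) T N (2 * N / ((n / 16) * (n / (2 * (l + 1))))) A (hyes ω A hA hAn)
      (fun κ hκ => hhit (ω, κ) hκ)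
  have h1' := Finset.sum_le_sum (s := (Finset.univ : Finset Ω)) (fun ω _ => h1 ω)
  rw [← Finset.sum_mul] at h1'
  have h2 := hno A hA hAn
  generalize hP : ∑ ω, ((D ω).noSeqs T N A).card = P at *
  generalize hg : n / 16 = g at *
  generalize hq : n / (2 * (l + 1)) = q at *
  generalize hO : Fintype.card Ω = o at *
  have hNpos : 0 < N := by omega
  have h4 : o * (g * q) ≤ 2 * R * P := by
    have h5 : (2 * N / (g * q)) * (g * q) ≤ 2 * N := Nat.div_mul_le_self _ _
    have h6 : N * (o * (g * q)) ≤ N * (2 * R * P) := by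
      calc N * (o * (g * q)) = (o * N) * (g * q) := by ring
        _ ≤ (R * (P * (2 * N / (g * q)))) * (g * q) :=
            Nat.mul_le_mul_right _ (h2.trans (Nat.mul_le_mul_left R h1'))
        _ = R * P * ((2 * N / (g * q)) * (g * q)) := by ring
        _ ≤ R * P * (2 * N) := Nat.mul_le_mul_left _ h5
        _ = N * (2 * R * P) := by ring
    exact Nat.le_of_mul_le_mul_left h6 hNpos
  have h6 : n ≤ 32 * g := by omega
  have h7 : n ≤ 4 * (l + 1) * q := by
    have h8 : n < (q + 1) * (2 * (l + 1)) := by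
      rw [← hq]
      exact (Nat.div_lt_iff_lt_mul (by omega)).mp (Nat.lt_succ_self _)
    have h9 : 1 ≤ q := by
      rw [← hq]
      exact Nat.div_pos (by omega) (by omega)
    nlinarith
  calc o * n ^ 2 = o * (n * n) := by ring
    _ ≤ o * ((32 * g) * (4 * (l + 1) * q)) := Nat.mul_le_mul_left _ (Nat.mul_le_mul h6 h7)
    _ = 128 * (l + 1) * (o * (g * q)) := by ring
    _ ≤ 128 * (l + 1) * (2 * R * P) := Nat.mul_le_mul_left _ h4
    _ = 256 * R * (l + 1) * P := by ring

/-- If every cell is the last cell of at most `q` probe sequences that end with no. -/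
theorem shared_cells [Fintype Ω] [Nonempty Ω] [Fintype G] [Fintype H]
    (D : Ω → CellProbe G H S W) (n N T l R q : ℕ)
    (hF : Fintype.card Ω * (Fintype.card H * (S * W + 1) ^ T) ≤ 2 ^ l)
    (hn : 256 * (l + 1) ≤ n) (hN : 4 * n ≤ N)
    (hyes : ∀ ω, ∀ A ⊆ Finset.range (2 * N), A.card = n → ∀ x ∈ A, ∀ y ∈ A,
      ∀ g, ((D ω).trace T A (x + y) g).2 ≠ some false)
    (hno : ∀ A ⊆ Finset.range (2 * N), A.card = n →
      Fintype.card Ω * N ≤ R * ∑ ω, ((D ω).noSet T N A).card)
    (hq : ∀ ω, ∀ A ⊆ Finset.range (2 * N), A.card = n → ∀ c : Fin S,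
      (((D ω).noSeqs T N A).filter (fun s => s.head? = some c)).card ≤ q) :
    n ^ 2 ≤ 256 * R * (l + 1) * (S * q + 1) := by
  classical
  obtain ⟨A, hA, hAn, h⟩ := many_seqs D n N T l R hF hn hN hyes hno
  have h1 : ∀ ω, ((D ω).noSeqs T N A).card ≤ S * q + 1 := by
    intro ω
    have hsub : (D ω).noSeqs T N A ⊆ insert [] (Finset.univ.biUnion (fun c : Fin S =>
        ((D ω).noSeqs T N A).filter (fun s => s.head? = some c))) := by
      intro s hs
      cases s with
      | nil => exact Finset.mem_insert_self _ _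
      | cons a s =>
        refine Finset.mem_insert_of_mem (Finset.mem_biUnion.mpr ⟨a, Finset.mem_univ _, ?_⟩)
        exact Finset.mem_filter.mpr ⟨hs, rfl⟩
    refine (Finset.card_le_card hsub).trans ((Finset.card_insert_le _ _).trans ?_)
    refine Nat.add_le_add_right ?_ 1
    refine (Finset.card_biUnion_le_card_mul _ _ q (fun c _ => hq ω A hA hAn c)).trans ?_
    rw [Finset.card_univ, Fintype.card_fin]
  have h2 := Finset.sum_le_sum (s := (Finset.univ : Finset Ω)) (fun ω _ => h1 ω)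
  rw [Finset.sum_const, Finset.card_univ, smul_eq_mul] at h2
  have h3 : Fintype.card Ω * n ^ 2 ≤ Fintype.card Ω * (256 * R * (l + 1) * (S * q + 1)) :=
    h.trans ((Nat.mul_le_mul_left _ h2).trans (le_of_eq (by ring)))
  exact Nat.le_of_mul_le_mul_left h3 Fintype.card_pos

end Pool.Agent.H.MP_0427c5_lc.PS
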