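import Mathlib

/-!
# Module YA: a set that contains none of few large sets

The number of the `n`-subsets of `P` that contain `V`, `|V| = m ≤ n`, is at most `choose (M - m) (n - m)`
(map `A` to `A \ V`), and `2 ^ (j m) * choose (M - m) (n - m) ≤ choose M n` if `2 ^ j n ≤ M` (induction on
`m`, `M * choose (M - 1) (n - 1) = n * choose M n`). For `m > n` there is none. So the number of the `A`
that contain some `V i` is at most `card ι * choose M n / 2 ^ (j (k + 1)) < choose M n`.
-/

set_option autoImplicit false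

namespace Pool.Agent.H.MP_0427c5_lc.PS

open Finset

theorem choose_pow (j M n m : ℕ) (hm : m ≤ n) (hn : 2 ^ j * n ≤ M) :
    2 ^ (j * m) * (M - m).choose (n - m) ≤ M.choose n := by
  have hj : 1 ≤ 2 ^ j := Nat.one_le_two_pow
  induction m generalizing M n with
  | zero => simp
  | succ m ih =>
    obtain ⟨n', rfl⟩ : ∃ n', n = n' + 1 := ⟨n - 1, by omega⟩
    have hn' : n' + 1 ≤ M := le_trans (Nat.le_mul_of_pos_left _ (by omega)) hn
    obtain ⟨M', rfl⟩ : ∃ M', M = M' + 1 := ⟨M - 1, by omega⟩
    have h0 : 2 ^ j * n' ≤ M' := by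
      rw [Nat.mul_succ] at hn
      omega
    have h1 := ih M' n' (by omega) h0
    have h2 : 2 ^ j * M'.choose n' ≤ (M' + 1).choose (n' + 1) := by
      have h3 := Nat.add_one_mul_choose_eq M' n'
      have h4 : 2 ^ j * M'.choose n' * (n' + 1) ≤ (M' + 1).choose (n' + 1) * (n' + 1) := by
        rw [← h3]
        calc 2 ^ j * M'.choose n' * (n' + 1) = 2 ^ j * (n' + 1) * M'.choose n' := by ring
          _ ≤ (M' + 1) * M'.choose n' := Nat.mul_le_mul_right _ hn
      exact Nat.le_of_mul_le_mul_right h4 (Nat.succ_pos n')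
    rw [Nat.add_sub_add_right, Nat.add_sub_add_right, Nat.mul_succ, pow_add]
    calc 2 ^ (j * m) * 2 ^ j * (M' - m).choose (n' - m) =
        2 ^ j * (2 ^ (j * m) * (M' - m).choose (n' - m)) := by ring
      _ ≤ 2 ^ j * M'.choose n' := Nat.mul_le_mul_left _ h1
      _ ≤ (M' + 1).choose (n' + 1) := h2

theorem exists_avoid {ι : Type} [Fintype ι] (P : Finset ℕ) (n j k : ℕ) (hn : 2 ^ j * n ≤ P.card)
    (V : ι → Finset ℕ) (hV : ∀ i, V i ⊆ P) (hl : ∀ i, k + 1 ≤ (V i).card)
    (hF : Fintype.card ι < 2 ^ (j * (k + 1))) :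
    ∃ A : Finset ℕ, A ⊆ P ∧ A.card = n ∧ ∀ i, ¬ V i ⊆ A := by
  classical
  by_contra hcon
  push Not at hcon
  have hsub : Finset.powersetCard n P ⊆ Finset.univ.biUnion (fun i : ι =>
      (Finset.powersetCard n P).filter (fun A => V i ⊆ A)) := by
    intro A hA
    obtain ⟨h1, h2⟩ := Finset.mem_powersetCard.1 hA
    obtain ⟨i, hi⟩ := hcon A h1 h2
    exact Finset.mem_biUnion.2 ⟨i, Finset.mem_univ _, Finset.mem_filter.2 ⟨hA, hi⟩⟩
  have hone : ∀ i, 2 ^ (j * (k + 1)) * ((Finset.powersetCard n P).filter (fun A => V i ⊆ A)).card ≤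
      P.card.choose n := by
    intro i
    rcases Finset.eq_empty_or_nonempty ((Finset.powersetCard n P).filter (fun A => V i ⊆ A))
      with h0 | ⟨A₀, hA₀⟩
    · rw [h0]
      simp
    · obtain ⟨h1, h2⟩ := Finset.mem_filter.1 hA₀
      have hm : (V i).card ≤ n := by
        rw [← (Finset.mem_powersetCard.1 h1).2]
        exact Finset.card_le_card h2
      have h3 : ((Finset.powersetCard n P).filter (fun A => V i ⊆ A)).card ≤
          (P.card - (V i).card).choose (n - (V i).card) := by
        rw [← Finset.card_sdiff_of_subset (hV i), ← Finset.card_powersetCard]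
        refine Finset.card_le_card_of_injOn (fun A => A \ V i) ?_ ?_
        · intro A hA
          obtain ⟨h4, h5⟩ := Finset.mem_filter.1 (Finset.mem_coe.1 hA)
          obtain ⟨h6, h7⟩ := Finset.mem_powersetCard.1 h4
          refine Finset.mem_coe.2 (Finset.mem_powersetCard.2
            ⟨Finset.sdiff_subset_sdiff h6 subset_rfl, ?_⟩)
          rw [Finset.card_sdiff_of_subset h5, h7]
        · intro A hA B hB hAB
          have h5 := (Finset.mem_filter.1 (Finset.mem_coe.1 hA)).2
          have h6 := (Finset.mem_filter.1 (Finset.mem_coe.1 hB)).2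
          have hAB' : A \ V i = B \ V i := hAB
          rw [← Finset.sdiff_union_of_subset h5, ← Finset.sdiff_union_of_subset h6, hAB']
      calc 2 ^ (j * (k + 1)) * ((Finset.powersetCard n P).filter (fun A => V i ⊆ A)).card ≤
          2 ^ (j * (V i).card) * (P.card - (V i).card).choose (n - (V i).card) :=
            Nat.mul_le_mul (Nat.pow_le_pow_right (by norm_num) (Nat.mul_le_mul_left j (hl i))) h3
        _ ≤ P.card.choose n := choose_pow j P.card n (V i).card hm hn
  have h1 : P.card.choose n ≤
      ∑ i : ι, ((Finset.powersetCard n P).filter (fun A => V i ⊆ A)).card := by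
    rw [← Finset.card_powersetCard]
    exact (Finset.card_le_card hsub).trans Finset.card_biUnion_le
  have h2 : 2 ^ (j * (k + 1)) * P.card.choose n ≤ Fintype.card ι * P.card.choose n := by
    calc 2 ^ (j * (k + 1)) * P.card.choose n ≤
        2 ^ (j * (k + 1)) * ∑ i : ι,
          ((Finset.powersetCard n P).filter (fun A => V i ⊆ A)).card :=
          Nat.mul_le_mul_left _ h1
      _ = ∑ i : ι, 2 ^ (j * (k + 1)) *
          ((Finset.powersetCard n P).filter (fun A => V i ⊆ A)).card := by
          rw [Finset.mul_sum]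
      _ ≤ ∑ _i : ι, P.card.choose n := Finset.sum_le_sum (fun i _ => hone i)
      _ = Fintype.card ι * P.card.choose n := by
          rw [Finset.sum_const, Finset.card_univ, smul_eq_mul]
  have hnP : n ≤ P.card := le_trans (Nat.le_mul_of_pos_left _ (Nat.two_pow_pos j)) hn
  have h3 : 0 < P.card.choose n := Nat.choose_pos hnP
  have h4 := Nat.le_of_mul_le_mul_right h2 h3
  omega

end Pool.Agent.H.MP_0427c5_lc.PS
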