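import Mathlib

/-!
# Module YB: Sidon sets

`ends P Z` is the set of the `x ∈ P` with `x + y ∈ Z` for some `y ∈ P`. If `Z ⊆ sums P` then
`Z ⊆ sums (ends P Z)`, so `2 |Z| ≤ m (m + 1)` with `m = |ends P Z|` (`Finset.card_sym2`). If `P` is a
Sidon set and `Z ⊆ sums A`, `A ⊆ P`, then `ends P Z ⊆ A`.
-/

set_option autoImplicit false

namespace Pool.Agent.H.MP_0427c5_lc.PS

open Finset

/-- The set of all sums of two elements of `A`. -/
def sums (A : Finset ℕ) : Finset ℕ := Finset.image₂ (fun x y => x + y) A A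

/-- Sums of two elements of `P` determine the two elements. -/
def Sidon (P : Finset ℕ) : Prop :=
  ∀ a ∈ P, ∀ b ∈ P, ∀ c ∈ P, ∀ d ∈ P, a + b = c + d → (a = c ∧ b = d) ∨ (a = d ∧ b = c)

/-- The elements of `P` that occur in a sum in `Z`. -/
def ends (P Z : Finset ℕ) : Finset ℕ := P.filter (fun x => ∃ y ∈ P, x + y ∈ Z)

theorem two_mul_card_sums_le (A : Finset ℕ) : 2 * (sums A).card ≤ A.card * (A.card + 1) := by
  have h1 : sums A ⊆ A.sym2.image (Sym2.lift ⟨fun x y => x + y, fun x y => Nat.add_comm x y⟩) := by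
    intro z hz
    obtain ⟨x, hx, y, hy, rfl⟩ := Finset.mem_image₂.1 hz
    exact Finset.mem_image.2 ⟨s(x, y), Finset.mk_mem_sym2_iff.2 ⟨hx, hy⟩, rfl⟩
  have h2 := (Finset.card_le_card h1).trans Finset.card_image_le
  rw [Finset.card_sym2, Nat.choose_two_right] at h2
  have h3 : 2 * ((A.card + 1) * (A.card + 1 - 1) / 2) ≤ (A.card + 1) * (A.card + 1 - 1) :=
    Nat.mul_div_le _ _
  have h4 : (A.card + 1) * (A.card + 1 - 1) = A.card * (A.card + 1) := by
    rw [Nat.add_sub_cancel, Nat.mul_comm]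
  omega

theorem two_mul_card_le_ends (P Z : Finset ℕ) (hZ : Z ⊆ sums P) :
    2 * Z.card ≤ (ends P Z).card * ((ends P Z).card + 1) := by
  have h1 : Z ⊆ sums (ends P Z) := by
    intro z hz
    obtain ⟨x, hx, y, hy, rfl⟩ := Finset.mem_image₂.1 (hZ hz)
    refine Finset.mem_image₂.2 ⟨x, Finset.mem_filter.2 ⟨hx, y, hy, hz⟩, y,
      Finset.mem_filter.2 ⟨hy, x, hx, ?_⟩, rfl⟩
    rw [Nat.add_comm]
    exact hz
  exact (Nat.mul_le_mul_left 2 (Finset.card_le_card h1)).trans (two_mul_card_sums_le _)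

theorem ends_subset (P A Z : Finset ℕ) (hP : Sidon P) (hA : A ⊆ P) (hZ : Z ⊆ sums A) :
    ends P Z ⊆ A := by
  intro x hx
  obtain ⟨hxP, y, hyP, hxy⟩ := Finset.mem_filter.1 hx
  obtain ⟨a, ha, b, hb, hab⟩ := Finset.mem_image₂.1 (hZ hxy)
  rcases hP x hxP y hyP a (hA ha) b (hA hb) hab.symm with h | h
  · rw [h.1]; exact ha
  · rw [h.1]; exact hb

end Pool.Agent.H.MP_0427c5_lc.PS
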