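import Pool.Agent.H.MP_0427c5_lc.PS.Cert

/-!
# Module YC: certificates for the answer yes

As in the module Cert, with the answer yes and the queries from a finite set `Q`.
-/

set_option autoImplicit false

namespace Pool.Agent.H.MP_0427c5_lc.PS

open Finset

variable {G H : Type} {S W : ℕ}

/-- The pairs of a query in `Q` and a guess that lead to the answer yes. -/
def CellProbe.yesRuns [Fintype G] (D : CellProbe G H S W) (T : ℕ) (Q A : Finset ℕ) :
    Finset (ℕ × G) :=
  (Q ×ˢ Finset.univ).filter (fun x => (D.trace T A x.1 x.2).2 = some true)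

/-- The queries in `Q` that are accepted: some guess leads to the answer yes. -/
def CellProbe.yesSet [Fintype G] (D : CellProbe G H S W) (T : ℕ) (Q A : Finset ℕ) : Finset ℕ :=
  (D.yesRuns T Q A).image Prod.fst

/-- The probe sequences that end with yes. -/
def CellProbe.yesSeqs [Fintype G] (D : CellProbe G H S W) (T : ℕ) (Q A : Finset ℕ) :
    Finset (List (Fin S)) :=
  (D.yesRuns T Q A).image (fun x => (D.trace T A x.1 x.2).1)

/-- The algorithm makes these probes and then answers yes. -/
def followsY (alg : List (Fin W) → Fin S ⊕ Bool) (r : List (Fin S × Fin W)) : Prop :=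
  valid alg r ∧ alg (r.map Prod.snd) = Sum.inr true

open Classical in
/-- The queries in `Q` that follow the certificate with some guess. -/
noncomputable def zsetY (D : CellProbe G H S W) (T : ℕ) (Q : Finset ℕ)
    (κ : H × (Fin T → Option (Fin S × Fin W))) : Finset ℕ :=
  Q.filter (fun z => ∃ g, followsY (D.step z g κ.1) (decode κ.2))

theorem mem_zsetY (D : CellProbe G H S W) (T : ℕ) (Q : Finset ℕ)
    (κ : H × (Fin T → Option (Fin S × Fin W))) (z : ℕ) :
    z ∈ zsetY D T Q κ ↔ z ∈ Q ∧ ∃ g, followsY (D.step z g κ.1) (decode κ.2) := by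
  classical
  unfold zsetY
  exact Finset.mem_filter

theorem followsY_of_run (M : Fin S → Fin W) (alg : List (Fin W) → Fin S ⊕ Bool) (t : ℕ)
    (l : List (Fin S)) (hl : valid alg (l.map (fun c => (c, M c))))
    (h : (run M alg t l).2 = some true) :
    followsY alg ((run M alg t l).1.map (fun c => (c, M c))) ∧
      (run M alg t l).1.length ≤ l.length + t := by
  induction t generalizing l with
  | zero =>
    unfold run at h ⊢
    cases ha : alg (l.map M) with
    | inl c =>
      rw [ha] at h
      simp at h
    | inr b =>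
      rw [ha] at h
      have hb : b = true := by simpa using h
      refine ⟨⟨hl, ?_⟩, le_rfl⟩
      change alg ((l.map (fun c => (c, M c))).map Prod.snd) = _
      rw [Cert_snd, ha, hb]
  | succ t ih =>
    unfold run at h ⊢
    cases ha : alg (l.map M) with
    | inl c =>
      rw [ha] at h
      have h1 := ih (c :: l) ⟨by rw [Cert_snd]; exact ha, hl⟩ h
      refine ⟨h1.1, h1.2.trans ?_⟩
      rw [List.length_cons]
      omega
    | inr b =>
      rw [ha] at h
      have hb : b = true := by simpa using h
      refine ⟨⟨hl, ?_⟩, Nat.le_add_right _ _⟩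
      change alg ((l.map (fun c => (c, M c))).map Prod.snd) = _
      rw [Cert_snd, ha, hb]

theorem run_of_followsY (M : Fin S → Fin W) (alg : List (Fin W) → Fin S ⊕ Bool) (t : ℕ)
    (l : List (Fin S)) (ht : l.length ≤ t) (hl : followsY alg (l.map (fun c => (c, M c)))) :
    run M alg t [] = (l, some true) := by
  rw [Cert_run M alg t l ht hl.1]
  have h1 : alg (l.map M) = Sum.inr true := by
    have h2 := hl.2
    rwa [Cert_snd] at h2
  cases t - l.length with
  | zero =>
    unfold run
    rw [h1]
  | succ n =>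
    unfold run
    rw [h1]

theorem card_yesSet_le [Fintype G] (D : CellProbe G H S W) (T k : ℕ) (Q A B : Finset ℕ)
    (hno : ∀ z ∈ Q, z ∉ B → ∀ g, (D.trace T A z g).2 ≠ some true)
    (hcert : ∀ κ, zsetY D T Q κ ⊆ B → (zsetY D T Q κ).card ≤ k) :
    (D.yesSet T Q A).card ≤ (D.yesSeqs T Q A).card * k := by
  classical
  have hsub : D.yesSet T Q A ⊆ (D.yesSeqs T Q A).biUnion (fun l =>
      Q.filter (fun z => ∃ g, D.trace T A z g = (l, some true))) := by
    intro z hz
    obtain ⟨x, hx, rfl⟩ := Finset.mem_image.1 hz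
    obtain ⟨hx1, hx2⟩ := Finset.mem_filter.1 hx
    have hx3 := (Finset.mem_product.1 hx1).1
    refine Finset.mem_biUnion.2 ⟨(D.trace T A x.1 x.2).1, Finset.mem_image.2 ⟨x, hx, rfl⟩, ?_⟩
    exact Finset.mem_filter.2 ⟨hx3, x.2, Prod.ext rfl hx2⟩
  refine (Finset.card_le_card hsub).trans (Finset.card_biUnion_le_card_mul _ _ k fun l hl => ?_)
  obtain ⟨x₀, hx₀, hxl⟩ := Finset.mem_image.1 hl
  have hx₁ := (Finset.mem_filter.1 hx₀).2
  have h1 := followsY_of_run (D.mem A) (D.step x₀.1 x₀.2 (D.header A)) T [] trivial hx₁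
  have hlen : l.length ≤ T := by
    have h2 := h1.2
    rw [List.length_nil, zero_add] at h2
    rw [← hxl]
    exact h2
  obtain ⟨f, hf⟩ := exists_decode (T := T) (l.map (fun c => (c, D.mem A c)))
    (by rw [List.length_map]; exact hlen)
  have hsub2 : Q.filter (fun z => ∃ g, D.trace T A z g = (l, some true)) ⊆
      zsetY D T Q (D.header A, f) := by
    intro z hz
    obtain ⟨hz3, g, hz4⟩ := Finset.mem_filter.1 hz
    refine (mem_zsetY D T Q _ z).2 ⟨hz3, g, ?_⟩
    change followsY (D.step z g (D.header A)) (decode f)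
    have h5 : (run (D.mem A) (D.step z g (D.header A)) T []) = (l, some true) := hz4
    have h6 := (followsY_of_run (D.mem A) (D.step z g (D.header A)) T [] trivial (by rw [h5])).1
    rw [h5] at h6
    rw [hf]
    exact h6
  refine (Finset.card_le_card hsub2).trans (hcert _ fun z hz => ?_)
  obtain ⟨hzQ, g, h3⟩ := (mem_zsetY D T Q _ z).1 hz
  change followsY (D.step z g (D.header A)) (decode f) at h3
  rw [hf] at h3
  by_contra hzB
  refine hno z hzQ hzB g ?_
  have h4 := run_of_followsY (D.mem A) (D.step z g (D.header A)) T l hlen h3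
  change (run (D.mem A) (D.step z g (D.header A)) T []).2 = some true
  rw [h4]

end Pool.Agent.H.MP_0427c5_lc.PS
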