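import Pool.Agent.H.MP_0427c5_lc.PS.YA
import Pool.Agent.H.MP_0427c5_lc.PS.YB
import Pool.Agent.H.MP_0427c5_lc.PS.YC

/-!
# Module YD: many probe sequences that end with yes

Take `A` from `exists_avoid` for the sets `ends P (zsetY κ)` with more than `k` elements. For this `A` a
consistent certificate is followed by at most `k (k + 1) / 2` queries.
-/

set_option autoImplicit false

namespace Pool.Agent.H.MP_0427c5_lc.PS

open Finset

variable {Ω G H : Type} {S W : ℕ}

theorem many_yesSeqs [Fintype Ω] [Fintype G] [Fintype H] (D : Ω → CellProbe G H S W)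
    (n T j k R : ℕ) (P : Finset ℕ) (hP : Sidon P) (hn : 2 ^ j * n ≤ P.card)
    (hF : Fintype.card Ω * (Fintype.card H * (S * W + 1) ^ T) < 2 ^ (j * (k + 1)))
    (hno : ∀ ω, ∀ A ⊆ P, A.card = n → ∀ z ∈ sums P, z ∉ sums A →
      ∀ g, ((D ω).trace T A z g).2 ≠ some true)
    (hyes : ∀ A ⊆ P, A.card = n →
      Fintype.card Ω * n ^ 2 ≤ R * ∑ ω, ((D ω).yesSet T (sums P) A).card) :
    ∃ A ⊆ P, A.card = n ∧
      Fintype.card Ω * (2 * n ^ 2) ≤ R * (k * (k + 1)) * ∑ ω, ((D ω).yesSeqs T (sums P) A).card := by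
  classical
  have hcard : Fintype.card (Ω × H × (Fin T → Option (Fin S × Fin W))) =
      Fintype.card Ω * (Fintype.card H * (S * W + 1) ^ T) := by
    rw [Fintype.card_prod, Fintype.card_prod, Fintype.card_fun, Fintype.card_option,
      Fintype.card_prod, Fintype.card_fin, Fintype.card_fin, Fintype.card_fin]
  obtain ⟨A, hA, hAn, hav⟩ := exists_avoid
    (ι := {κ : Ω × H × (Fin T → Option (Fin S × Fin W)) //
      k + 1 ≤ (ends P (zsetY (D κ.1) T (sums P) κ.2)).card}) P n j k hn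
    (fun κ => ends P (zsetY (D κ.1.1) T (sums P) κ.1.2)) (fun κ => Finset.filter_subset _ _)
    (fun κ => κ.2) (lt_of_le_of_lt (Fintype.card_subtype_le _) (hcard.trans_lt hF))
  refine ⟨A, hA, hAn, ?_⟩
  have h1 : ∀ ω, ((D ω).yesSet T (sums P) A).card ≤
      ((D ω).yesSeqs T (sums P) A).card * (k * (k + 1) / 2) := by
    intro ω
    refine card_yesSet_le (D ω) T (k * (k + 1) / 2) (sums P) A (sums A) (hno ω A hA hAn) ?_
    intro κ hκ
    have h2 : ¬ k + 1 ≤ (ends P (zsetY (D ω) T (sums P) κ)).card := fun hcon =>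
      hav ⟨(ω, κ), hcon⟩ (ends_subset P A _ hP hA hκ)
    have h3 : (ends P (zsetY (D ω) T (sums P) κ)).card ≤ k := by omega
    have h4 := two_mul_card_le_ends P (zsetY (D ω) T (sums P) κ)
      (fun z hz => ((mem_zsetY (D ω) T (sums P) κ z).1 hz).1)
    have h5 : (ends P (zsetY (D ω) T (sums P) κ)).card *
        ((ends P (zsetY (D ω) T (sums P) κ)).card + 1) ≤ k * (k + 1) :=
      Nat.mul_le_mul h3 (by omega)
    rw [Nat.le_div_iff_mul_le (by norm_num)]
    omega
  have h1' := Finset.sum_le_sum (s := (Finset.univ : Finset Ω)) (fun ω _ => h1 ω)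
  rw [← Finset.sum_mul] at h1'
  have h2 := hyes A hA hAn
  have h3 : 2 * (k * (k + 1) / 2) ≤ k * (k + 1) := Nat.mul_div_le _ _
  generalize hPs : ∑ ω, ((D ω).yesSeqs T (sums P) A).card = p at *
  generalize hO : Fintype.card Ω = o at *
  calc o * (2 * n ^ 2) = 2 * (o * n ^ 2) := by ring
    _ ≤ 2 * (R * (p * (k * (k + 1) / 2))) :=
        Nat.mul_le_mul_left _ (h2.trans (Nat.mul_le_mul_left R h1'))
    _ = R * p * (2 * (k * (k + 1) / 2)) := by ring
    _ ≤ R * p * (k * (k + 1)) := Nat.mul_le_mul_left _ h3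
    _ = R * (k * (k + 1)) * p := by ring

/-- If every cell is the last cell of at most `q` probe sequences that end with yes. -/
theorem shared_cells_yes [Fintype Ω] [Nonempty Ω] [Fintype G] [Fintype H]
    (D : Ω → CellProbe G H S W) (n T j k R q : ℕ) (P : Finset ℕ) (hP : Sidon P)
    (hn : 2 ^ j * n ≤ P.card)
    (hF : Fintype.card Ω * (Fintype.card H * (S * W + 1) ^ T) < 2 ^ (j * (k + 1)))
    (hno : ∀ ω, ∀ A ⊆ P, A.card = n → ∀ z ∈ sums P, z ∉ sums A →
      ∀ g, ((D ω).trace T A z g).2 ≠ some true)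
    (hyes : ∀ A ⊆ P, A.card = n →
      Fintype.card Ω * n ^ 2 ≤ R * ∑ ω, ((D ω).yesSet T (sums P) A).card)
    (hq : ∀ ω, ∀ A ⊆ P, A.card = n → ∀ c : Fin S,
      (((D ω).yesSeqs T (sums P) A).filter (fun s => s.head? = some c)).card ≤ q) :
    2 * n ^ 2 ≤ R * (k * (k + 1)) * (S * q + 1) := by
  classical
  obtain ⟨A, hA, hAn, h⟩ := many_yesSeqs D n T j k R P hP hn hF hno hyes
  have h1 : ∀ ω, ((D ω).yesSeqs T (sums P) A).card ≤ S * q + 1 := by
    intro ω
    have hsub : (D ω).yesSeqs T (sums P) A ⊆ insert [] (Finset.univ.biUnion (fun c : Fin S =>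
        ((D ω).yesSeqs T (sums P) A).filter (fun s => s.head? = some c))) := by
      intro s hs
      cases s with
      | nil => exact Finset.mem_insert_self _ _
      | cons a s =>
        refine Finset.mem_insert_of_mem (Finset.mem_biUnion.mpr ⟨a, Finset.mem_univ _, ?_⟩)
        exact Finset.mem_filter.mpr ⟨hs, rfl⟩
    refine (Finset.card_le_card hsub).trans ((Finset.card_insert_le _ _).trans ?_)
    refine Nat.add_le_add_right ?_ 1
    refine (Finset.card_biUnion_le_card_mul _ _ q (fun c _ => hq ω A hA hAn c)).trans ?_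
    rw [Finset.card_univ, Fintype.card_fin]
  have h2 := Finset.sum_le_sum (s := (Finset.univ : Finset Ω)) (fun ω _ => h1 ω)
  rw [Finset.sum_const, Finset.card_univ, smul_eq_mul] at h2
  have h3 : Fintype.card Ω * (2 * n ^ 2) ≤
      Fintype.card Ω * (R * (k * (k + 1)) * (S * q + 1)) :=
    h.trans ((Nat.mul_le_mul_left _ h2).trans (le_of_eq (by ring)))
  exact Nat.le_of_mul_le_mul_left h3 Fintype.card_pos

end Pool.Agent.H.MP_0427c5_lc.PS
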